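import Pool.Agent.R619.TreeFG

/-!
# Finitely generated isotypic algebras which are not isomorphic

The signature has unary operations `t`, `c` and `s l`, where `l` runs over a countable set of
labels, each with one of two colours. The algebras `A` and `B` are trees: `t` is the parent, `s l`
is the child with label `l`, and `c` is the identity at the nodes of the first colour and the
parent at the nodes of the second colour. Each algebra is generated by one node `a`, and the nodes
`a, t a, t (t a), ...` are the nodes which have no label; their colours alternate, starting with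
the first colour in `A` and with the second colour in `B`. So `B` is isomorphic to the subalgebra
of `A` which is generated by `t a`, and conversely; by `Pool.Agent.R619.Tree.sh_elementary` these
subalgebras are elementary substructures, as a formula involves only finitely many labels.
-/

set_option autoImplicit false

namespace Pool.Agent.Results.MP_c850b7_lc.NotIsomorphic

open FirstOrder FirstOrder.Language Pool.Agent.R619.Tree

/-- The colours of the chain of `A`. -/
def colA (j : ℕ) : Bool := j % 2 == 0

/-- The colours of the chain of `B`. -/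
def colB (j : ℕ) : Bool := colA (j + 1)

/-- The first algebra. -/
abbrev A : Type := Nd ℕ Nat.succ colA

/-- The second algebra. -/
abbrev B : Type := Nd ℕ Nat.succ colB

theorem shift_types (col col' : ℕ → Bool) (h : (fun j => col (j + 1)) = col') (n : ℕ)
    (a : Fin n → Nd ℕ Nat.succ col') : ∃ b : Fin n → Nd ℕ Nat.succ col, SameType L a b := by
  subst h
  exact ⟨sh col ∘ a, fun φ => (sh_elementary col φ a).symm⟩

theorem isotypic : Isotypic L A B := by
  intro n
  constructor
  · intro a
    refine shift_types colB colA ?_ n a
    funext j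
    simp only [colA, colB]
    rw [show j + 1 + 1 = j + 2 by ring, Nat.add_mod_right]
  · intro b
    obtain ⟨a, ha⟩ := shift_types colA colB rfl n b
    exact ⟨a, fun φ => (ha φ).symm⟩

/-- the node `x` is a child with a label -/
def Labelled {col : ℕ → Bool} (x : Nd ℕ Nat.succ col) : Prop := ∃ l y, Nd.chd l y = x

theorem labelled_iff {col : ℕ → Bool} (x : Nd ℕ Nat.succ col) : Labelled x ↔ x.w ≠ [] := by
  constructor
  · rintro ⟨l, y, rfl⟩
    simp [Nd.chd]
  · intro h
    refine ⟨x.w.getLast h, ⟨x.w.dropLast, x.j⟩, ?_⟩
    exact Nd.ext' (List.dropLast_append_getLast h) rfl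

/-- the first node of the chain -/
def First {col : ℕ → Bool} (x : Nd ℕ Nat.succ col) : Prop :=
  ¬ Labelled x ∧ ∀ y : Nd ℕ Nat.succ col, ¬ Labelled y → y.par ≠ x

theorem first_iff {col : ℕ → Bool} (x : Nd ℕ Nat.succ col) : First x ↔ x = ⟨[], 0⟩ := by
  constructor
  · rintro ⟨h1, h2⟩
    rw [labelled_iff, not_not] at h1
    obtain ⟨w, j⟩ := x
    simp only at h1
    subst h1
    cases j with
    | zero => rfl
    | succ j =>
      refine absurd (par_nil (col := col) j) (h2 ⟨[], j⟩ ?_)
      rw [labelled_iff]
      simp
  · rintro rfl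
    refine ⟨by rw [labelled_iff]; simp, ?_⟩
    intro y hy he
    rw [labelled_iff, not_not] at hy
    obtain ⟨w, j⟩ := y
    simp only at hy
    subst hy
    rw [par_nil] at he
    simp at he

theorem not_iso : IsEmpty (A ≃[L] B) := by
  refine ⟨fun e => ?_⟩
  have ht : ∀ x : A, e x.par = (e x).par := fun x => e.map_fun (n := 1) Fn.t (fun _ => x)
  have hc : ∀ x : A, e x.cop = (e x).cop := fun x => e.map_fun (n := 1) Fn.c (fun _ => x)
  have hs : ∀ (l : Lbl) (x : A), e (x.chd l) = (e x).chd l :=
    fun l x => e.map_fun (n := 1) (Fn.s l) (fun _ => x)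
  have hl : ∀ x : A, Labelled (e x) ↔ Labelled x := by
    intro x
    constructor
    · rintro ⟨l, y, hy⟩
      obtain ⟨z, rfl⟩ := e.surjective y
      rw [← hs] at hy
      exact ⟨l, z, e.injective hy⟩
    · rintro ⟨l, y, rfl⟩
      exact ⟨l, e y, (hs l y).symm⟩
  have hf : First (e ⟨[], 0⟩) := by
    have h0 : First (⟨[], 0⟩ : A) := (first_iff _).2 rfl
    refine ⟨fun h => h0.1 ((hl _).1 h), fun y hy he => ?_⟩
    obtain ⟨z, rfl⟩ := e.surjective y
    rw [← ht] at he
    exact h0.2 z (fun h => hy ((hl z).2 h)) (e.injective he)
  rw [first_iff] at hf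
  have h1 : (⟨[], 0⟩ : A).cop = ⟨[], 0⟩ := by
    unfold Nd.cop
    rw [if_pos]
    rfl
  have h2 := hc ⟨[], 0⟩
  rw [h1, hf] at h2
  have h3 : (⟨[], 0⟩ : B).cop = ⟨[], 1⟩ := by
    unfold Nd.cop
    rw [if_neg]
    · exact par_nil 0
    · simp [Nd.clr, colB, colA]
  rw [h3] at h2
  simp at h2

/-- There are isotypic finitely generated algebras `A` and `B` of the same signature (algebras of
the variety of all algebras of this signature, which has only unary operations) which are not
isomorphic. -/
theorem result : ∃ (L : FirstOrder.Language.{0, 0}) (_ : ∀ n, IsEmpty (L.Relations n))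
    (A B : Type) (_ : L.Structure A) (_ : L.Structure B),
    Isotypic L A B ∧ Structure.FG L A ∧ Structure.FG L B ∧ IsEmpty (A ≃[L] B) :=
  ⟨Pool.Agent.R619.Tree.L, fun _ => inferInstance, A, B, inferInstance, inferInstance,
    isotypic, nd_fg _, nd_fg _, not_iso⟩

end Pool.Agent.Results.MP_c850b7_lc.NotIsomorphic
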